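import Pool.Agent.X116.ShiftDist

set_option autoImplicit false

/-!
# Uniform closeness of all polynomials to the shift locus, in terms of the leading coefficient

Let `T` be a complex polynomial of degree `d ≥ 2` with leading coefficient `a` and `m` critical values
(`m ≤ d - 1`). The area of the set of the `t ∈ ℂ` for which a given point does not escape under
`T + t` is at most `π |a| ^ (-2 / (d - 1))`; so the area of the set of the `t` for which `T + t` is not
in the shift locus is at most `m π |a| ^ (-2 / (d - 1))`. Hence every `T` becomes hyperbolic, with all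
critical points escaping, by a change of the constant coefficient alone by less than any number
greater than `√m |a| ^ (-1 / (d - 1))`, uniformly in all the other coefficients, and for every `ε > 0`
all polynomials of degree `d` with leading coefficient of modulus greater than
`((d - 1) / ε ^ 2) ^ ((d - 1) / 2)` are within `ε` of hyperbolic polynomials.

Proof: the iterates of `z` under `T + t` are polynomials in `t` of degree `d ^ n` with leading
coefficient `a ^ ((d ^ n - 1) / (d - 1))`; Pólya's inequality for the area of lemniscates, proved here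
from the inequality of Ahlfors and Beurling for the Cauchy transform of a set.
-/

open Polynomial Filter Topology MeasureTheory

namespace Pool.Agent.Results.MP_28f8a1_an.LargeLeadingCoefficient

/-- The polynomial as a self-map of the plane. -/
def map (T : ℂ[X]) : ℂ → ℂ := fun w : ℂ => T.eval w

/-- The orbit of `z` escapes to infinity. -/
def Escapes (T : ℂ[X]) (z : ℂ) : Prop :=
  Tendsto (fun k : ℕ => ‖(map T)^[k] z‖) atTop atTop

/-- The orbit of `z` is attracted by a sink (attracting periodic point) of `T`. -/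
def Attracted (T : ℂ[X]) (z : ℂ) : Prop :=
  ∃ n : ℕ, 0 < n ∧ ∃ x : ℂ, (map T)^[n] x = x ∧ ‖deriv ((map T)^[n]) x‖ < 1 ∧
    Tendsto (fun k : ℕ => (map T)^[n * k] z) atTop (𝓝 x)

/-- `T` is hyperbolic: every critical point escapes or is attracted by a sink. -/
def Hyperbolic (T : ℂ[X]) : Prop :=
  ∀ c : ℂ, (derivative T).eval c = 0 → Escapes T c ∨ Attracted T c

/-- The shift locus: all critical points escape. -/
def ShiftLocus (T : ℂ[X]) : Prop := ∀ c : ℂ, (derivative T).eval c = 0 → Escapes T c

/-- The critical values. -/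
def critValues (T : ℂ[X]) : Set ℂ := {v | ∃ c : ℂ, (derivative T).eval c = 0 ∧ T.eval c = v}

/-- the radius of a disc of parameters -/
noncomputable def rad (d : ℕ) : ℝ := (1 - 1 / (d:ℝ)) * (d:ℝ) ^ (-(1:ℝ) / ((d:ℝ) - 1))

theorem rad_tendsto : Tendsto rad atTop (𝓝 1) := by
  have h1 : Tendsto (fun d : ℕ => 1 - 1 / (d:ℝ)) atTop (𝓝 (1 - 0)) :=
    tendsto_const_nhds.sub tendsto_one_div_atTop_nhds_zero_nat
  have h2 : Tendsto (fun d : ℕ => (d:ℝ) ^ (-(1:ℝ) / ((d:ℝ) - 1))) atTop (𝓝 1) := by
    have h3 := (tendsto_rpow_div_mul_add (-1) 1 (-1) (by norm_num)).comp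
      (tendsto_natCast_atTop_atTop (R := ℝ))
    refine h3.congr fun d => ?_
    simp only [Function.comp_apply]
    congr 1
    ring
  have h4 := h1.mul h2
  simp only [sub_zero, mul_one] at h4
  exact h4

theorem unicritical : Tendsto (fun d : ℕ => volume {t : ℂ | ¬ ShiftLocus (X ^ d + C t)}) atTop
    (𝓝 (ENNReal.ofReal Real.pi)) := by
  have hup : ∀ᶠ d : ℕ in atTop, volume {t : ℂ | ¬ ShiftLocus (X ^ d + C t)}
      ≤ ENNReal.ofReal Real.pi := by
    filter_upwards [eventually_ge_atTop 2] with d hd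
    have hdeg : (X ^ d : ℂ[X]).natDegree = d := natDegree_X_pow d
    have h1 := Pool.Agent.X116.SD.area (T := (X ^ d : ℂ[X])) (by rw [hdeg]; exact hd) 0
    rw [leadingCoeff_X_pow, norm_one, Real.one_rpow, mul_one] at h1
    refine (measure_mono ?_).trans h1
    intro t ht hesc
    apply ht
    intro c hc
    have hc0 : c = 0 := by
      have h2 : (derivative (X ^ d + C t : ℂ[X])).eval c = (d : ℂ) * c ^ (d - 1) := by
        simp [derivative_X_pow]
      rw [h2, mul_eq_zero] at hc
      rcases hc with hc | hc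
      · have : d = 0 := by exact_mod_cast hc
        omega
      · exact pow_eq_zero_iff (by omega) |>.1 hc
    rw [hc0]
    exact hesc
  have hlow : ∀ᶠ d : ℕ in atTop, ENNReal.ofReal (Real.pi * rad d ^ 2)
      ≤ volume {t : ℂ | ¬ ShiftLocus (X ^ d + C t)} := by
    filter_upwards [eventually_ge_atTop 2] with d hd
    have hdR : (2:ℝ) ≤ d := by exact_mod_cast hd
    have hr0 : 0 ≤ rad d := by
      unfold rad
      have : 1 / (d:ℝ) ≤ 1 := by rw [div_le_one (by linarith)]; linarith
      have h0 : 0 ≤ 1 - 1 / (d:ℝ) := by linarith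
      positivity
    have h1 : Metric.ball (0:ℂ) (rad d) ⊆ {t : ℂ | ¬ ShiftLocus (X ^ d + C t)} := by
      intro t ht hs
      rw [mem_ball_zero_iff] at ht
      refine Pool.Agent.X116.SD.multibrot_disc hd (t := t) ht.le (hs 0 ?_)
      have h2 : (derivative (X ^ d + C t : ℂ[X])).eval 0 = (d : ℂ) * 0 ^ (d - 1) := by
        simp [derivative_X_pow]
      rw [h2, zero_pow (by omega), mul_zero]
    refine le_trans (le_of_eq ?_) (measure_mono h1)
    rw [Complex.volume_ball, mul_comm, ENNReal.ofReal_mul (by positivity),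
      ENNReal.ofReal_pow hr0]
    congr 1
    rw [← NNReal.coe_real_pi, ENNReal.ofReal_coe_nnreal]
  have hlim : Tendsto (fun d : ℕ => ENNReal.ofReal (Real.pi * rad d ^ 2)) atTop
      (𝓝 (ENNReal.ofReal Real.pi)) := by
    apply ENNReal.tendsto_ofReal
    have := (rad_tendsto.pow 2).const_mul Real.pi
    simpa using this
  exact tendsto_of_tendsto_of_tendsto_of_le_of_le' hlim tendsto_const_nhds hlow hup

/-- Let `T` have degree `d ≥ 2`, leading coefficient `a` and `m` critical values; then:
(1) for every point `z` the area of the set of the `t` for which the orbit of `z` under `T + t` does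
not escape is at most `π |a| ^ (-2 / (d - 1))`;
(2) the area of the set of the `t` for which `T + t` is not in the shift locus is at most
`m π |a| ^ (-2 / (d - 1))`, and `m ≤ d - 1`;
(3) if `ρ > √m |a| ^ (-1 / (d - 1))` then there is `t`, `|t| < ρ`, such that `T(z) + t` and `T(z + t)`
are in the shift locus.
(4) For every `ε > 0`, every `T` of degree `d` with `|a| > ((d - 1) / ε ^ 2) ^ ((d - 1) / 2)` has a
hyperbolic polynomial `S` of the same degree, with the same leading coefficient, the same critical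
points and all critical points escaping, whose coefficients differ from those of `T` by less than `ε`.
(5) The constant `π` is optimal: for `T = X ^ d` the area in (2) tends to `π` as `d → ∞`. -/
theorem result :
    (∀ T : ℂ[X], 2 ≤ T.natDegree →
      (∀ z : ℂ, volume {t : ℂ | ¬ Escapes (T + C t) z} ≤
        ENNReal.ofReal (Real.pi * ‖T.leadingCoeff‖ ^ (-(2:ℝ) / ((T.natDegree : ℝ) - 1)))) ∧
      volume {t : ℂ | ¬ ShiftLocus (T + C t)} ≤ ENNReal.ofReal ((critValues T).ncard *
        (Real.pi * ‖T.leadingCoeff‖ ^ (-(2:ℝ) / ((T.natDegree : ℝ) - 1)))) ∧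
      (critValues T).ncard ≤ T.natDegree - 1 ∧
      ∀ ρ : ℝ, Real.sqrt (critValues T).ncard *
          ‖T.leadingCoeff‖ ^ (-(1:ℝ) / ((T.natDegree : ℝ) - 1)) < ρ →
        ∃ t : ℂ, ‖t‖ < ρ ∧ ShiftLocus (T + C t) ∧ ShiftLocus (T.comp (X + C t))) ∧
    (∀ (d : ℕ) (ε : ℝ), 2 ≤ d → 0 < ε → ∀ T : ℂ[X], T.natDegree = d →
      (((d : ℝ) - 1) / ε ^ 2) ^ (((d : ℝ) - 1) / 2) < ‖T.leadingCoeff‖ →
      ∃ S : ℂ[X], S.natDegree = d ∧ S.leadingCoeff = T.leadingCoeff ∧
        derivative S = derivative T ∧ (∀ i : ℕ, ‖S.coeff i - T.coeff i‖ < ε) ∧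
        ShiftLocus S ∧ Hyperbolic S) ∧
    Tendsto (fun d : ℕ => volume {t : ℂ | ¬ ShiftLocus (X ^ d + C t)}) atTop
      (𝓝 (ENNReal.ofReal Real.pi)) := by
  refine ⟨fun T hd => ⟨fun z => Pool.Agent.X116.SD.area hd z, Pool.Agent.X116.SD.area_shift hd,
    Pool.Agent.X116.SD.critValues_card hd, fun ρ hρ => ?_⟩, ?_, unicritical⟩
  · have hρ0 : 0 < ρ := lt_of_le_of_lt (by positivity) hρ
    have h1 : ((critValues T).ncard : ℝ) *
        ‖T.leadingCoeff‖ ^ (-(2:ℝ) / ((T.natDegree : ℝ) - 1)) < ρ ^ 2 := by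
      have h2 : ((critValues T).ncard : ℝ) *
          ‖T.leadingCoeff‖ ^ (-(2:ℝ) / ((T.natDegree : ℝ) - 1))
          = (Real.sqrt (critValues T).ncard *
          ‖T.leadingCoeff‖ ^ (-(1:ℝ) / ((T.natDegree : ℝ) - 1))) ^ 2 := by
        rw [mul_pow, Real.sq_sqrt (Nat.cast_nonneg _),
          ← Real.rpow_natCast (‖T.leadingCoeff‖ ^ (-(1:ℝ) / ((T.natDegree : ℝ) - 1))),
          ← Real.rpow_mul (norm_nonneg _)]
        congr 2
        push_cast
        ring
      rw [h2]
      gcongr
    obtain ⟨t, ht, hs⟩ := Pool.Agent.X116.SD.exists_near hd hρ0 h1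
    exact ⟨t, ht, hs, Pool.Agent.X116.SD.shift_comp hs⟩
  · intro d ε hd hε T hT ha
    have hd' : 2 ≤ T.natDegree := by rw [hT]; exact hd
    have hdR : (2:ℝ) ≤ d := by exact_mod_cast hd
    have hpos : (0:ℝ) < ((d : ℝ) - 1) / ε ^ 2 := div_pos (by linarith) (by positivity)
    have ha0 : 0 < ‖T.leadingCoeff‖ := lt_of_le_of_lt (Real.rpow_nonneg hpos.le _) ha
    have h1 : ((critValues T).ncard : ℝ) *
        ‖T.leadingCoeff‖ ^ (-(2:ℝ) / ((T.natDegree : ℝ) - 1)) < ε ^ 2 := by
      rw [hT]
      have h2 : ((d : ℝ) - 1) / ε ^ 2 < ‖T.leadingCoeff‖ ^ ((2:ℝ) / ((d : ℝ) - 1)) := by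
        have h3 := Real.rpow_lt_rpow (Real.rpow_nonneg hpos.le _) ha
          (show (0:ℝ) < 2 / ((d : ℝ) - 1) from div_pos two_pos (by linarith))
        rw [← Real.rpow_mul hpos.le] at h3
        have h4 : ((d : ℝ) - 1) / 2 * (2 / ((d : ℝ) - 1)) = 1 := by
          have : (d : ℝ) - 1 ≠ 0 := by linarith
          field_simp
        rw [h4, Real.rpow_one] at h3
        exact h3
      have h5 : ‖T.leadingCoeff‖ ^ (-(2:ℝ) / ((d : ℝ) - 1))
          = (‖T.leadingCoeff‖ ^ ((2:ℝ) / ((d : ℝ) - 1)))⁻¹ := by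
        rw [← Real.rpow_neg ha0.le, neg_div]
      have h6 : ((critValues T).ncard : ℝ) ≤ (d : ℝ) - 1 := by
        have h7 := Pool.Agent.X116.SD.critValues_card hd'
        have h8 : (critValues T).ncard ≤ d - 1 := by rw [← hT]; exact h7
        have h9 : ((critValues T).ncard : ℝ) ≤ ((d - 1 : ℕ) : ℝ) := by exact_mod_cast h8
        rwa [Nat.cast_sub (by omega), Nat.cast_one] at h9
      rw [h5]
      have h10 : 0 < ‖T.leadingCoeff‖ ^ ((2:ℝ) / ((d : ℝ) - 1)) := by positivity
      rw [div_lt_iff₀ (by positivity)] at h2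
      rw [← div_eq_mul_inv, div_lt_iff₀ h10]
      linarith
    obtain ⟨t, ht, hs⟩ := Pool.Agent.X116.SD.exists_near hd' hε h1
    refine ⟨T + C t, ?_, ?_, ?_, ?_, hs, fun c hc => Or.inl (hs c hc)⟩
    · rw [natDegree_add_C, hT]
    · rw [leadingCoeff_add_of_degree_lt']
      refine degree_lt_degree ?_
      rw [natDegree_C]; omega
    · simp
    · intro i
      rw [coeff_add, add_sub_cancel_left, coeff_C]
      split_ifs
      · exact ht
      · simpa using hε

end Pool.Agent.Results.MP_28f8a1_an.LargeLeadingCoefficient
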