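import Pool.Agent.X85.PkMain

set_option autoImplicit false

open Filter Topology Polynomial MeasureTheory Metric

namespace Pool.Agent.Results.MP_28f8a1_an.PeakFunctions

/-- The polynomial as a self-map of the plane. -/
def map (T : ℂ[X]) : ℂ → ℂ := fun w : ℂ => T.eval w

/-- The orbit of `z` escapes to infinity. -/
def Escapes (T : ℂ[X]) (z : ℂ) : Prop :=
  Tendsto (fun k : ℕ => ‖(map T)^[k] z‖) atTop atTop

/-- The filled Julia set: the points which do not escape. -/
def K (T : ℂ[X]) : Set ℂ := {z : ℂ | ¬ Escapes T z}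

/-- The critically marked polynomials of degree `n + 1` with leading coefficient `a`: the polynomial
`P a x` with the leading coefficient `a`, the critical points `x (some i)`, `i = 0, …, n - 1`, and the
constant term `x none`, that is `x none` plus the antiderivative (without constant term) of
`a (n + 1) ∏ (X - x (some i))`; see `P_spec`. -/
noncomputable def P (a : ℂ) {n : ℕ} (x : Option (Fin n) → ℂ) : ℂ[X] :=
  C (x none) + ∑ k ∈ Finset.range (n + 1), monomial (k + 1)
    ((C (a * ((n : ℂ) + 1)) * ∏ i : Fin n, (X - C (x (some i)))).coeff k / (k + 1))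

/-- `P a x` is the polynomial described above. -/
theorem P_spec {a : ℂ} (ha : a ≠ 0) {n : ℕ} (x : Option (Fin n) → ℂ) :
    (P a x).natDegree = n + 1 ∧ (P a x).leadingCoeff = a ∧
      derivative (P a x) = C (a * ((n : ℂ) + 1)) * ∏ i : Fin n, (X - C (x (some i))) ∧
      (P a x).coeff 0 = x none :=
  ⟨Pool.Agent.H713R3.ZA.natDegree_fam ha n x, Pool.Agent.W820.BM.leadingCoeff_fam ha n x,
    Pool.Agent.H713R3.ZA.derivative_fam a n x, Pool.Agent.H713R3.ZA.coeff_fam_zero a n x⟩

/-- The connectedness locus of critically marked polynomials, in the slice of `t`: the `x` such that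
`P a x` and `P a t` have the same coefficient of order `n` (degree minus one; so the same barycentre
of the critical points) and no critical point of `P a x` escapes. -/
def Locus (a : ℂ) {n : ℕ} (t : Option (Fin n) → ℂ) : Set (Option (Fin n) → ℂ) :=
  {x | (P a x).coeff n = (P a t).coeff n ∧ ∀ i, ¬ Escapes (P a x) (x (some i))}

/-- Let `n ≥ 1`, `a ≠ 0` and `b` be given. There is a constant `C` such that for every critically
marked polynomial `t` of degree `n + 1` with leading coefficient `a` and second coefficient at most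
`b` in modulus, none of whose critical points escapes, the area of the filled Julia set `K (P a t)`
is finite, and:
(1) for every `δ > 0` there is a function `f` without zeros, holomorphic in an open neighbourhood
`Ω` of the connectedness locus in the slice of `t`, with `f t = 1` and
`|f x| ≤ exp (C area K (P a t) + δ - |coeff j (P a x) - coeff j (P a t)| ^ 2)` for all `x` in the
connectedness locus and all `j`;
(2) for every probability measure `μ` on a compact subset of the connectedness locus which represents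
`t` (`∫ f dμ = f t` for all `f` holomorphic near the connectedness locus) the variance
`∫ |coeff j (P a x) - coeff j (P a t)| ^ 2 dμ x` is at most `C area K (P a t)`; in particular if the
area is zero then `P a x = P a t` for `μ`-almost all `x`;
(3) for every holomorphic family `x s` in the connectedness locus, parametrized by the unit disc, with
`x 0 = t`, the functions `F s = coeff j (P a (x s)) - coeff j (P a t)` satisfy the estimates
`(1/2π) ∫ |F (r exp (iθ))| ^ 2 dθ ≤ C area K (P a t)` for `0 < r < 1` and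
`|F s| ^ 2 ≤ C area K (P a t) |s| ^ 2 / (1 - |s| ^ 2)` for `|s| < 1`. -/
theorem result (n : ℕ) (hn : 1 ≤ n) (a : ℂ) (ha : a ≠ 0) (b : ℝ) : ∃ C : ℝ, 0 < C ∧
    ∀ t : Option (Fin n) → ℂ, ‖(P a t).coeff n‖ ≤ b → (∀ i, ¬ Escapes (P a t) (t (some i))) →
      volume (K (P a t)) < ⊤ ∧
      (∀ δ : ℝ, 0 < δ → ∃ (Ω : Set (Option (Fin n) → ℂ)) (f : (Option (Fin n) → ℂ) → ℂ),
        IsOpen Ω ∧ Locus a t ⊆ Ω ∧ DifferentiableOn ℂ f Ω ∧ (∀ x ∈ Ω, f x ≠ 0) ∧ f t = 1 ∧
        ∀ x ∈ Locus a t, ∀ j : ℕ, ‖f x‖ ≤ Real.exp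
          (C * (volume (K (P a t))).toReal + δ - ‖(P a x).coeff j - (P a t).coeff j‖ ^ 2)) ∧
      (∀ (L : Set (Option (Fin n) → ℂ)) (μ : Measure (Option (Fin n) → ℂ)), IsCompact L →
        L ⊆ Locus a t → IsProbabilityMeasure μ → μ Lᶜ = 0 →
        (∀ (Ω : Set (Option (Fin n) → ℂ)) (f : (Option (Fin n) → ℂ) → ℂ), IsOpen Ω →
          Locus a t ⊆ Ω → DifferentiableOn ℂ f Ω → ∫ x, f x ∂μ = f t) →
        (∀ j : ℕ, ∫ x, ‖(P a x).coeff j - (P a t).coeff j‖ ^ 2 ∂μ ≤
          C * (volume (K (P a t))).toReal) ∧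
        (volume (K (P a t)) = 0 → ∀ᵐ x ∂μ, P a x = P a t)) ∧
      (∀ x : ℂ → (Option (Fin n) → ℂ), DifferentiableOn ℂ x (ball 0 1) → x 0 = t →
        (∀ s ∈ ball (0 : ℂ) 1, x s ∈ Locus a t) → ∀ j : ℕ,
        (∀ r : ℝ, 0 < r → r < 1 →
          Real.circleAverage (fun s => ‖(P a (x s)).coeff j - (P a t).coeff j‖ ^ 2) 0 r ≤
            C * (volume (K (P a t))).toReal) ∧
        ∀ s ∈ ball (0 : ℂ) 1, ‖(P a (x s)).coeff j - (P a t).coeff j‖ ^ 2 ≤
          C * (volume (K (P a t))).toReal * (‖s‖ ^ 2 / (1 - ‖s‖ ^ 2))) := by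
  obtain ⟨C, hC, h⟩ := Pool.Agent.X85.Pk.peak ha hn b
  refine ⟨C, hC, fun t htb hcrit => ?_⟩
  obtain ⟨hvol, h⟩ := h t htb hcrit
  refine ⟨hvol, ?_, ?_, ?_⟩
  · intro δ hδ
    obtain ⟨Ω, g, hΩ, hg, hg0, hg1⟩ := h δ hδ
    refine ⟨Ω, fun x => Complex.exp (g x), hΩ, fun x hx => (hg1 x hx.1 hx.2).1,
      hg.cexp, fun x _ => Complex.exp_ne_zero _, by simp [hg0], ?_⟩
    intro x hx j
    rw [Complex.norm_exp]
    apply Real.exp_le_exp.mpr
    have := (hg1 x hx.1 hx.2).2 j
    have e : (Pool.Agent.H713R3.ZA.fam a n x) = P a x := rfl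
    have e' : (Pool.Agent.H713R3.ZA.fam a n t) = P a t := rfl
    have e'' : Pool.Agent.H713R3.ZA.KJ (P a t) = K (P a t) := rfl
    rw [e, e', e''] at this
    linarith
  · intro L μ hL hLM hμ hμL hrep
    have hv : ∀ j : ℕ, Integrable (fun x => ‖(P a x).coeff j - (P a t).coeff j‖ ^ 2) μ ∧
        ∫ x, ‖(P a x).coeff j - (P a t).coeff j‖ ^ 2 ∂μ ≤ C * (volume (K (P a t))).toReal := by
      intro j
      have h1 : ∀ δ : ℝ, 0 < δ → Integrable (fun x => ‖(P a x).coeff j - (P a t).coeff j‖ ^ 2) μ ∧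
        ∫ x, ‖(P a x).coeff j - (P a t).coeff j‖ ^ 2 ∂μ ≤
          C * (volume (K (P a t))).toReal + δ := by
        intro δ hδ
        obtain ⟨Ω, g, hΩ, hg, hg0, hg1⟩ := h δ hδ
        refine Pool.Agent.X85.Pk.meas hg hL (fun x hx => (hg1 x (hLM hx).1 (hLM hx).2).1)
          (fun x hx => (hg1 x (hLM hx).1 (hLM hx).2).2 j) μ hμL ?_
        rw [hrep Ω g hΩ (fun x hx => (hg1 x hx.1 hx.2).1) hg, hg0]
      exact ⟨(h1 1 one_pos).1, le_of_forall_pos_le_add fun δ hδ => (h1 δ hδ).2⟩
    refine ⟨fun j => (hv j).2, fun h0 => ?_⟩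
    apply Pool.Agent.X85.Pk.meas_zero μ (fun j => (hv j).1)
    intro j
    have := (hv j).2
    rw [h0, ENNReal.toReal_zero, mul_zero] at this
    exact this
  · intro x hx hx0 hxM j
    have hc : ∀ r : ℝ, 0 < r → r < 1 →
          Real.circleAverage (fun s => ‖(P a (x s)).coeff j - (P a t).coeff j‖ ^ 2) 0 r ≤
            C * (volume (K (P a t))).toReal := by
      intro r hr0 hr1
      apply le_of_forall_pos_le_add
      intro δ hδ
      obtain ⟨Ω, g, hΩ, hg, hg0, hg1⟩ := h δ hδ
      exact Pool.Agent.X85.Pk.disc hg hg0 hx hx0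
        (fun s hs => (hg1 _ (hxM s hs).1 (hxM s hs).2).1)
        (fun s hs => (hg1 _ (hxM s hs).1 (hxM s hs).2).2 j) hr0 hr1
    refine ⟨hc, fun s hs => ?_⟩
    have hF : DifferentiableOn ℂ (fun s => (P a (x s)).coeff j - (P a t).coeff j) (ball 0 1) :=
      ((Pool.Agent.X85.Pk.coeff_diff a n j).comp_differentiableOn hx).sub_const _
    exact Pool.Agent.X85.Pk.hardy hF (by simp [hx0]) hc (by simpa using hs)

end Pool.Agent.Results.MP_28f8a1_an.PeakFunctions
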