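import Pool.Agent.X167.Sh.C

/-!
# The distance of a polynomial to the shift locus

The shift locus of degree `d` is the open set of the polynomials of degree `d` all of whose critical
points escape to infinity; these polynomials are hyperbolic (and their Julia sets are Cantor sets).
On every compact set of polynomials of degree `d` the distance of `T` to the shift locus is at most
a constant times the square root of the area of the filled Julia set of `T`.
-/

set_option autoImplicit false

open Filter Topology Polynomial MeasureTheory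

namespace Pool.Agent.Results.MP_28f8a1_an.ShiftLocusDistance

/-- The polynomial as a self-map of the plane. -/
def map (T : ℂ[X]) : ℂ → ℂ := fun w : ℂ => T.eval w

/-- The orbit of `z` escapes to infinity. -/
def Escapes (T : ℂ[X]) (z : ℂ) : Prop :=
  Tendsto (fun k : ℕ => ‖(map T)^[k] z‖) atTop atTop

/-- The filled Julia set: the points which do not escape. -/
def K (T : ℂ[X]) : Set ℂ := {z : ℂ | ¬ Escapes T z}

/-- `S` belongs to the shift locus: all its critical points escape. -/
def InShiftLocus (S : ℂ[X]) : Prop := ∀ c : ℂ, (derivative S).eval c = 0 → Escapes S c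

/-- (1) For all `d ≥ 2` and `A > 0` there is `C > 0` such that for every polynomial `T` of degree `d`
with coefficients bounded by `A` and with leading coefficient at least `1 / A` in modulus: the area
of `K T` is finite, and for every `ε > C * sqrt (area (K T))` there is a polynomial `S` of degree `d`
in the shift locus, with the same leading coefficient, whose coefficients differ from those of `T` by
less than `ε`.
(2) In other words, with `c = 1 / C ^ 2`: if no polynomial of degree `d` with the same leading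
coefficient whose coefficients differ from those of `T` by less than `ε` belongs to the shift locus,
then the filled Julia set of `T` has area at least `c * ε ^ 2`. -/
theorem result (d : ℕ) (A : ℝ) (hd : 2 ≤ d) (hA : 0 < A) :
    (∃ C : ℝ, 0 < C ∧ ∀ T : ℂ[X], T.natDegree = d → (∀ i : ℕ, ‖T.coeff i‖ ≤ A) →
      1 / A ≤ ‖T.leadingCoeff‖ → volume (K T) < ⊤ ∧
      ∀ ε : ℝ, C * Real.sqrt (volume (K T)).toReal < ε →
        ∃ S : ℂ[X], S.natDegree = d ∧ S.leadingCoeff = T.leadingCoeff ∧
          (∀ i : ℕ, ‖S.coeff i - T.coeff i‖ < ε) ∧ InShiftLocus S) ∧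
    (∃ c : ℝ, 0 < c ∧ ∀ T : ℂ[X], T.natDegree = d → (∀ i : ℕ, ‖T.coeff i‖ ≤ A) →
      1 / A ≤ ‖T.leadingCoeff‖ → ∀ ε : ℝ, 0 < ε →
      (∀ S : ℂ[X], S.natDegree = d → S.leadingCoeff = T.leadingCoeff →
        (∀ i : ℕ, ‖S.coeff i - T.coeff i‖ < ε) → ¬ InShiftLocus S) →
      ENNReal.ofReal (c * ε ^ 2) ≤ volume (K T)) := by
  have h1 : ∃ C : ℝ, 0 < C ∧ ∀ T : ℂ[X], T.natDegree = d → (∀ i : ℕ, ‖T.coeff i‖ ≤ A) →
      1 / A ≤ ‖T.leadingCoeff‖ → volume (K T) < ⊤ ∧
      ∀ ε : ℝ, C * Real.sqrt (volume (K T)).toReal < ε →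
        ∃ S : ℂ[X], S.natDegree = d ∧ S.leadingCoeff = T.leadingCoeff ∧
          (∀ i : ℕ, ‖S.coeff i - T.coeff i‖ < ε) ∧ InShiftLocus S := by
    obtain ⟨C, hC, h⟩ := Pool.Agent.X167.Sh.main d A hd hA
    refine ⟨C, hC, fun T hTd hTA hTl => ?_⟩
    obtain ⟨h1, h2⟩ := h T hTd hTA hTl
    refine ⟨h1, fun ε hε => ?_⟩
    obtain ⟨S, e1, e2, e3, e4⟩ := h2 ε hε
    exact ⟨S, e1.trans hTd, e2, e3, e4⟩
  refine ⟨h1, ?_⟩
  obtain ⟨C, hC, h⟩ := h1
  refine ⟨1 / C ^ 2, by positivity, fun T hTd hTA hTl ε hε hno => ?_⟩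
  obtain ⟨hfin, h2⟩ := h T hTd hTA hTl
  have h3 : ε ≤ C * Real.sqrt (volume (K T)).toReal := by
    by_contra hcon
    push Not at hcon
    obtain ⟨S, e1, e2, e3, e4⟩ := h2 ε hcon
    exact hno S e1 e2 e3 e4
  rw [← ENNReal.ofReal_toReal hfin.ne]
  apply ENNReal.ofReal_le_ofReal
  have h4 : ε ^ 2 ≤ (C * Real.sqrt (volume (K T)).toReal) ^ 2 :=
    pow_le_pow_left₀ hε.le h3 2
  rw [mul_pow, Real.sq_sqrt ENNReal.toReal_nonneg] at h4
  rw [one_div, inv_mul_le_iff₀ (by positivity)]
  exact h4

end Pool.Agent.Results.MP_28f8a1_an.ShiftLocusDistance
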