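import Pool.Agent.X325.EP.E

/-!
# Density of hyperbolicity at weakly expanding polynomials, in almost every direction

Let `T` be a complex polynomial of degree `d ≥ 2` whose attracted points are dense and which is
expanding, in a weak sense, along the orbits of the critical points which are not attracted. Then
outside finitely many proper subspaces of the space of polynomials `H` of degree less than `d`, the
complex line `T + s H` contains hyperbolic polynomials with arbitrarily small `s ≠ 0`. If the
escaping points are dense, the polynomials found are in the shift locus.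

Method: (1) transversality: if the critical orbit of a simple critical point is summable and its
closure has zero area then `∑ H (T^j c) / (T^j)'(T c) ≠ 0` for some `H` of degree less than `d`
(Cauchy series fixed by the Ruelle operator, partial fractions with the sharp degree bound for
polynomials); (2) multiple critical points split and the differences of the critical values grow
along the orbit; (3) the simultaneous escape principle for the parameter `s = a ^ K`.
-/

set_option autoImplicit false

open Filter Topology Polynomial MeasureTheory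

namespace Pool.Agent.Results.MP_28f8a1_an.WeaklyExpandingDirections

/-- The polynomial as a self-map of the plane. -/
def map (T : ℂ[X]) : ℂ → ℂ := fun w : ℂ => T.eval w

/-- The orbit of `z` escapes to infinity. -/
def Escapes (T : ℂ[X]) (z : ℂ) : Prop :=
  Tendsto (fun k : ℕ => ‖(map T)^[k] z‖) atTop atTop

/-- The orbit of `z` is attracted by a sink (attracting periodic point) of `T`. -/
def Attracted (T : ℂ[X]) (z : ℂ) : Prop :=
  ∃ n : ℕ, 0 < n ∧ ∃ x : ℂ, (map T)^[n] x = x ∧ ‖deriv ((map T)^[n]) x‖ < 1 ∧
    Tendsto (fun k : ℕ => (map T)^[n * k] z) atTop (𝓝 x)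

/-- `S` is hyperbolic: every critical point escapes or is attracted by a sink. -/
def Hyperbolic (S : ℂ[X]) : Prop :=
  ∀ c : ℂ, (derivative S).eval c = 0 → Escapes S c ∨ Attracted S c

/-- `S` is in the shift locus: every critical point escapes. -/
def ShiftLocus (S : ℂ[X]) : Prop :=
  ∀ c : ℂ, (derivative S).eval c = 0 → Escapes S c

/-- `T` is weakly expanding relative to the set `G`: `G` is dense; for some `μ > 1` there are
infinitely many `n` such that every critical point `c` is in `G` or satisfies
`max_{m ≤ n} |(T^m)'(T c)| ≥ μ ^ n`; every critical point `c` is in `G`, or multiple, or such that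
the closure of its orbit has zero area and `∑_m 1 / |(T^m)'(T c)| < ∞`. -/
def WeaklyExpanding (T : ℂ[X]) (G : ℂ → Prop) : Prop :=
  Dense {z : ℂ | G z} ∧
  (∃ μ : ℝ, 1 < μ ∧ ∃ᶠ n : ℕ in atTop, ∀ c : ℂ, (derivative T).eval c = 0 → G c ∨
    ∃ m ≤ n, μ ^ n ≤ ‖deriv ((map T)^[m]) (T.eval c)‖) ∧
  ∀ c : ℂ, (derivative T).eval c = 0 → G c ∨ 2 ≤ (derivative T).rootMultiplicity c ∨
    (volume (closure (Set.range fun m : ℕ => (map T)^[m] c)) = 0 ∧
      Summable fun m : ℕ => ‖deriv ((map T)^[m]) (T.eval c)‖⁻¹)

/-- In almost every complex line through `T` there are polynomials with the property `Q` which are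
arbitrarily close to `T`: there are at most `2 (d - 1)` subspaces which do not contain all the
polynomials of degree less than `d = deg T` such that for every polynomial `H` of degree less than
`d` outside these subspaces and every `ε > 0` there is `s` with `0 < |s| < ε` such that `T + s H`
has the property `Q`. -/
def InGenericLines (T : ℂ[X]) (Q : ℂ[X] → Prop) : Prop :=
  ∃ 𝒱 : Finset (Submodule ℂ ℂ[X]), 𝒱.card ≤ 2 * (T.natDegree - 1) ∧
    (∀ V ∈ 𝒱, ∃ H : ℂ[X], H.degree < T.natDegree ∧ H ∉ V) ∧
    ∀ H : ℂ[X], H.degree < T.natDegree → (∀ V ∈ 𝒱, H ∉ V) → ∀ ε : ℝ, 0 < ε →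
      ∃ s : ℂ, 0 < ‖s‖ ∧ ‖s‖ < ε ∧ Q (T + C s * H)

/-- `T` is a limit of polynomials with the property `Q` which have the same degree and the same
leading coefficient as `T`. -/
def IsLimit (T : ℂ[X]) (Q : ℂ[X] → Prop) : Prop :=
  ∀ ε : ℝ, 0 < ε → ∃ S : ℂ[X], S.natDegree = T.natDegree ∧ S.leadingCoeff = T.leadingCoeff ∧
    (∀ i : ℕ, ‖S.coeff i - T.coeff i‖ < ε) ∧ Q S

open Pool.Agent.X325.EP Pool.Agent.H792R2.CE Pool.Agent.H792R2

theorem isLimit_of {T : ℂ[X]} {Q : ℂ[X] → Prop} (h : InGenericLines T Q) : IsLimit T Q := by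
  intro ε hε
  obtain ⟨𝒱, -, h1, h2⟩ := h
  -- a direction outside the subspaces
  obtain ⟨H, hHd, hHV⟩ : ∃ H : ℂ[X], H.degree < T.natDegree ∧ ∀ V ∈ 𝒱, H ∉ V := by
    rcases Nat.eq_zero_or_pos T.natDegree with h0 | h0
    · refine ⟨0, by rw [degree_zero]; exact WithBot.bot_lt_coe _, ?_⟩
      intro V hV
      obtain ⟨H, h3, h4⟩ := h1 V hV
      rw [h0] at h3
      have h5 : H = 0 := by
        by_contra h6
        rw [degree_eq_natDegree h6] at h3
        exact absurd h3 (by norm_cast)
      rw [h5] at h4
      exact h4
    · refine exists_notMem 𝒱 fun V hV => ?_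
      obtain ⟨H, h3, h4⟩ := h1 V hV
      refine ⟨H, ?_, h4⟩
      by_cases h6 : H = 0
      · rw [h6, natDegree_zero]
        exact h0
      · rw [degree_eq_natDegree h6] at h3
        exact_mod_cast h3
  -- a bound for the coefficients of the direction
  obtain ⟨B, hB0, hB⟩ : ∃ B : ℝ, 0 ≤ B ∧ ∀ i, ‖H.coeff i‖ ≤ B := by
    refine ⟨∑ i ∈ H.support, ‖H.coeff i‖, Finset.sum_nonneg fun _ _ => norm_nonneg _, ?_⟩
    intro i
    by_cases hi : i ∈ H.support
    · exact Finset.single_le_sum (f := fun i => ‖H.coeff i‖) (fun _ _ => norm_nonneg _) hi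
    · rw [notMem_support_iff.1 hi, norm_zero]
      exact Finset.sum_nonneg fun _ _ => norm_nonneg _
  obtain ⟨s, hs0, hsε, hs⟩ := h2 H hHd hHV (ε / (B + 1)) (by positivity)
  have hT0 : T ≠ 0 ∨ H = 0 := by
    by_contra hcon
    push Not at hcon
    rw [hcon.1, natDegree_zero, degree_eq_natDegree hcon.2] at hHd
    exact absurd hHd (by norm_cast)
  have hdeg : (C s * H).degree < T.degree ∨ H = 0 := by
    rcases hT0 with h0 | h0
    · left
      rw [← smul_eq_C_mul]
      refine lt_of_le_of_lt (degree_smul_le s H) ?_
      rwa [degree_eq_natDegree h0]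
    · exact Or.inr h0
  have hlead : (T + C s * H).leadingCoeff = T.leadingCoeff := by
    rcases hdeg with h0 | h0
    · exact leadingCoeff_add_of_degree_lt' h0
    · rw [h0, mul_zero, add_zero]
  have hnat : (T + C s * H).natDegree = T.natDegree := by
    rcases hdeg with h0 | h0
    · exact natDegree_add_eq_left_of_degree_lt h0
    · rw [h0, mul_zero, add_zero]
  refine ⟨T + C s * H, hnat, hlead, ?_, hs⟩
  intro i
  have e1 : (T + C s * H).coeff i - T.coeff i = s * H.coeff i := by
    rw [coeff_add, coeff_C_mul]
    ring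
  rw [e1, norm_mul]
  rw [lt_div_iff₀ (by positivity)] at hsε
  nlinarith [hB i, norm_nonneg (H.coeff i), norm_nonneg s]

theorem generic_of {A : (ℂ → ℂ) → ℂ → Prop} (hA : Pred A) {T : ℂ[X]} (hd : 2 ≤ T.natDegree)
    (h : WeaklyExpanding T (fun z => A (map T) z)) :
    InGenericLines T (fun S => ∀ c : ℂ, (derivative S).eval c = 0 → A (map S) c) := by
  obtain ⟨hdense, ⟨μ, hμ, hexp⟩, hsimple⟩ := h
  have e1 : rf T 1 = map T := rf_one T
  have e2 : wr T 1 = derivative T := wr_one T
  obtain ⟨𝒱, h1, h2, h3⟩ := main hA (P := T) hd rfl (by rw [e1]; exact hdense) hμ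
    (by rw [e1, e2]; exact hexp)
    (by
      rw [e1, e2]
      intro c hc
      rcases hsimple c hc with h | h | ⟨h4, h5⟩
      · exact Or.inl h
      · exact Or.inr (Or.inl h)
      · refine Or.inr (Or.inr ⟨measure_mono_null (closure_mono ?_) h4, h5⟩)
        rintro _ ⟨m, rfl⟩
        exact ⟨m + 1, Function.iterate_succ_apply _ _ _⟩)
  refine ⟨𝒱, h1, ?_, ?_⟩
  · intro V hV
    obtain ⟨H, h4, h5⟩ := h2 V hV
    exact ⟨H, lt_of_le_of_lt degree_le_natDegree (by exact_mod_cast h4), h5⟩
  · intro H hH hHV ε hε
    have h4 : H.natDegree < T.natDegree := by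
      by_cases h6 : H = 0
      · rw [h6, natDegree_zero]
        omega
      · rw [degree_eq_natDegree h6] at hH
        exact_mod_cast hH
    obtain ⟨s, hs0, hsε, hs⟩ := h3 H h4 hHV ε hε
    exact ⟨s, norm_pos_iff.2 hs0, hsε, hs⟩

/-- (1) If `T` is weakly expanding relative to the points which escape or are attracted by sinks,
then hyperbolic polynomials accumulate at `T` in almost every complex line through `T`, and `T` is a
limit of hyperbolic polynomials of the same degree and leading coefficient. (2) If `T` is weakly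
expanding relative to the escaping points, the same holds for the shift locus. -/
theorem result (T : ℂ[X]) (hd : 2 ≤ T.natDegree) :
    (WeaklyExpanding T (fun z => Escapes T z ∨ Attracted T z) →
      InGenericLines T Hyperbolic ∧ IsLimit T Hyperbolic) ∧
    (WeaklyExpanding T (fun z => Escapes T z) →
      InGenericLines T ShiftLocus ∧ IsLimit T ShiftLocus) := by
  constructor
  · intro h
    have h1 : InGenericLines T Hyperbolic := generic_of pred_attr hd h
    exact ⟨h1, isLimit_of h1⟩
  · intro h
    have h1 : InGenericLines T ShiftLocus := generic_of pred_escape hd h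
    exact ⟨h1, isLimit_of h1⟩

end Pool.Agent.Results.MP_28f8a1_an.WeaklyExpandingDirections
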